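import Pool.Agent.H71.SLP.Defs
import Pool.Agent.H7.SLP.H5N

/-!
# Valid data: first consequences

`Dts.OK.sub`: the restriction to events. `ok_near`: the rounded label of the context is close to
the own sheet on the box, at the exact time. `ok_grad`, `ok_on`, `ok_ball`: slopes, position, and
the tube of the ball.
-/

set_option autoImplicit false

namespace Pool.SLF

open Finset Real MvPolynomial
open Pool.Agent.H49.Ent Pool.Agent.H32.Dense Pool.STK Pool.KA Pool.KSAT Pool.K2S Pool.PB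
open Pool.SLO

variable {k J : ℕ}

/-- Valid data are valid on the parts. -/
theorem Dts.OK.sub {F : Fam (k + 1) J} {d : Dts F} {i₁ : Fin (k + 1)} {N ρ K : ℕ}
    {p : ℕ → ℕ → ℕ} {A A₁ : F.Ω → Prop} (h : d.OK i₁ N ρ K p A) (hs : Sub A₁ A) :
    d.OK i₁ N ρ K p A₁ where
  dG := h.dG
  dH := h.dH
  mo := h.mo
  le := h.le
  tr := h.tr
  on := fun a ha ω hω => h.on a ha ω (hs ω hω)
  g0 := fun a ha ω hω => h.g0 a ha ω (hs ω hω)
  gr := fun a ha ω hω => h.gr a ha ω (hs ω hω)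
  tb := fun a ha w hw v hv hv' ω hω => h.tb a ha w hw v hv hv' ω (hs ω hω)
  cm := fun a a' haa ha' ω hω => h.cm a a' haa ha' ω (hs ω hω)

/-- A point of the box at the exact time is in the ball. -/
theorem sb_near {m : ℕ} (F : Fam m J) (i₁ : Fin m) {a w q : ℕ} (hw : w ≤ J) (hq : a ≤ w + q)
    (ω : F.Ω) {b : Fin m → ℝ} (hb : ∀ j, 0 ≤ b j ∧ b j ≤ 1) (hb1 : b i₁ = F.tw w ω) (j : Fin m) :
    |sb i₁ a w (cw F i₁ a w ω) (dq F i₁ q ω) b j - bp F i₁ ω j| ≤ 2 / 2 ^ a := by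
  have h0 : (0 : ℝ) < 2 ^ a := by positivity
  rw [← sb_pb F i₁ a w q ω]
  have h2 : pb F i₁ a w q ω i₁ = F.tw w ω := by
    unfold pb pnt
    rw [if_pos rfl]
  unfold sb
  by_cases hj : j = i₁
  · rw [if_pos hj, if_pos hj, hb1, h2, sub_self, abs_zero]
    positivity
  · rw [if_neg hj, if_neg hj, hb1, h2]
    have h3 : pb F i₁ a w q ω j = yb F i₁ a w ω j + F.tw w ω * omb F i₁ a w q ω j := by
      unfold pb pnt
      rw [if_neg hj]
    have h4 := yb_mem F i₁ a w ω j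
    have h5 := omb_mem F i₁ a w q ω j
    have h6 := SLP.tw_mem' F hw ω
    have h7 : (2 : ℝ) ^ a / (2 ^ w * 2 ^ q) ≤ 1 := by
      rw [div_le_one (by positivity), ← pow_add]
      exact pow_le_pow_right₀ (by norm_num) hq
    have h8 : F.tw w ω * omb F i₁ a w q ω j ≤ 1 * 1 :=
      mul_le_mul h6.2.le (h5.2.trans h7) h5.1 (by norm_num)
    have h9 : 0 ≤ F.tw w ω * omb F i₁ a w q ω j := mul_nonneg h6.1 h5.1
    have h10 := hb j
    have e : cw F i₁ a w ω j + dq F i₁ q ω j * (F.tw w ω / 2 ^ w) + b j / 2 ^ a -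
        (cw F i₁ a w ω j + dq F i₁ q ω j * (F.tw w ω / 2 ^ w) + pb F i₁ a w q ω j / 2 ^ a) =
        (b j - pb F i₁ a w q ω j) / 2 ^ a := by ring
    rw [e, abs_div, abs_of_pos h0]
    refine div_le_div_of_nonneg_right ?_ h0.le
    rw [h3, abs_le]
    constructor <;> linarith [h10.1, h10.2, h4.1, h4.2]

/-- The radius of the cells is smaller than the radius of the balls. -/
theorem two_le_ball {a u : ℕ} (hu : 1 ≤ u) :
    (2 : ℝ) / 2 ^ ((a + 2) * u) ≤ 1 / 2 ^ ((a + 1) * u) := by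
  rw [div_le_div_iff₀ (by positivity) (by positivity), one_mul, ← pow_succ']
  refine pow_le_pow_right₀ (by norm_num) ?_
  nlinarith

variable {F : Fam (k + 1) J} {d : Dts F} {i₁ : Fin (k + 1)} {N ρ K : ℕ} {p : ℕ → ℕ → ℕ}
  {A : F.Ω → Prop}

/-- **The label of the context is close to the own sheet** on the box, at the exact time. -/
theorem ok_near (h : d.OK i₁ N ρ K p A) (hu : 1 ≤ J / N) {a w v q R : ℕ} (hwa : w ≤ a)
    (ha : a ≤ ρ) (hv : w * (J / N) ≤ v) (hv' : v ≤ a * (J / N)) (hvJ : v ≤ J)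
    (hq : (a + 2) * (J / N) ≤ v + q * (J / N)) (hR : R ≤ p a w) (ω : F.Ω) (hω : A ω) :
    SLP.NearB F i₁ ((a + 2) * (J / N)) v (q * (J / N)) K (R * (J / N)) (R * (J / N))
      (1 + (mons (k + 1) K).card) (own F N ρ d a) (d.H a v) ω := by
  intro b hb hb1
  have h1 := h.tb a ha w hwa v hv hv' ω hω
    (sb i₁ ((a + 2) * (J / N)) v (cw F i₁ ((a + 2) * (J / N)) v ω) (dq F i₁ (q * (J / N)) ω) b)
    (fun j => (sb_near F i₁ hvJ hq ω hb hb1 j).trans (two_le_ball hu))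
  have h2 : (1 : ℝ) / 2 ^ (p a w * (J / N)) ≤ 1 / 2 ^ (R * (J / N)) :=
    one_div_le_one_div_of_le (by positivity)
      (pow_le_pow_right₀ (by norm_num) (Nat.mul_le_mul_right _ hR))
  have hd : (plb F i₁ ((a + 2) * (J / N)) v (q * (J / N)) ω
      (d.H a v (slam F v ω))).totalDegree ≤ K := (totalDegree_pull_le _ _ _ _ _ _).trans (h.dH _ _ _)
  have h3 := abs_rdp_le (P := R * (J / N)) hd (b := b) (fun i => by
    rw [abs_of_nonneg (hb i).1]
    exact (hb i).2)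
  have e1 : eval b (plb F i₁ ((a + 2) * (J / N)) v (q * (J / N)) ω (own F N ρ d a ω)) =
      eval (sb i₁ ((a + 2) * (J / N)) v (cw F i₁ ((a + 2) * (J / N)) v ω)
        (dq F i₁ (q * (J / N)) ω) b) (own F N ρ d a ω) := eval_pull _ _ _ _ _ _ _
  have e2 : eval b (plb F i₁ ((a + 2) * (J / N)) v (q * (J / N)) ω (d.H a v (slam F v ω))) =
      eval (sb i₁ ((a + 2) * (J / N)) v (cw F i₁ ((a + 2) * (J / N)) v ω)
        (dq F i₁ (q * (J / N)) ω) b) (d.H a v (slam F v ω)) := eval_pull _ _ _ _ _ _ _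
  rw [← e1, ← e2] at h1
  have e3 : eval b (Rc F i₁ ((a + 2) * (J / N)) v (q * (J / N)) K (R * (J / N)) (d.H a v) ω) =
      eval b (rdp K (R * (J / N)) (plb F i₁ ((a + 2) * (J / N)) v (q * (J / N)) ω
        (d.H a v (slam F v ω)))) := rfl
  rw [e3, add_div]
  rw [abs_le] at h1 h3 ⊢
  constructor <;> linarith [h1.1, h1.2, h3.1, h3.2]

/-- The slopes on the box. -/
theorem ok_grad (h : d.OK i₁ N ρ K p A) (hu : 1 ≤ J / N) {a : ℕ} (ha : a ≤ ρ) (ω : F.Ω)
    (hω : A ω) (b : Fin (k + 1) → ℝ)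
    (hb : ∀ j, |b j - bp F i₁ ω j| ≤ 2 / 2 ^ ((a + 2) * (J / N))) (j : Fin (k + 1)) :
    |eval b (pderiv j (own F N ρ d a ω))| ≤ 2 * ((k + 1 : ℕ) : ℝ) + 1 :=
  h.gr a ha ω hω b (fun j => (hb j).trans (two_le_ball hu)) j

/-- The sample is on the own sheet. -/
theorem ok_on (h : d.OK i₁ N ρ K p A) {a : ℕ} (ha : a ≤ ρ) {e : ℕ}
    (he : e ≤ p a a * (J / N)) (ω : F.Ω) (hω : A ω) :
    |F.x ω i₁ - eval (bp F i₁ ω) (own F N ρ d a ω)| ≤ 1 / 2 ^ e :=
  (h.on a ha ω hω).trans (one_div_le_one_div_of_le (by positivity)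
    (pow_le_pow_right₀ (by norm_num) he))

/-- The precision of the ball. -/
theorem ok_gap (h : d.OK i₁ N ρ K p A) {a R s : ℕ} (ha : a ≤ ρ) (hg : Gap p R s a) :
    R + s ≤ p a a :=
  hg.2.trans (h.mo (a - s) a (a - s) a (Nat.sub_le _ _) ha (Nat.sub_le _ _) le_rfl)

/-- The tube of the ball as a function of the window of the length of the cells. -/
theorem ok_ball (h : d.OK i₁ N ρ K p A) {a : ℕ} (ha : a ≤ ρ)
    (haJ : (a + 2) * (J / N) ≤ J) : ∃ H : Sl F → MvPolynomial (Fin (k + 1)) ℝ,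
    (∀ s, (H s).totalDegree ≤ K) ∧ ∀ ω, A ω → ∀ b : Fin (k + 1) → ℝ,
      (∀ j, |b j - bp F i₁ ω j| ≤ 1 / 2 ^ ((a + 2) * (J / N))) →
      |eval b (own F N ρ d a ω) - eval b (H (slam F ((a + 2) * (J / N)) ω))| ≤
        1 / 2 ^ (p a a * (J / N)) := by
  have hle : a * (J / N) ≤ (a + 2) * (J / N) := Nat.mul_le_mul_right _ (by omega)
  refine ⟨fun s => d.H a (a * (J / N))
    (s.1, s.2.1, s.2.2 / 2 ^ ((a + 2) * (J / N) - a * (J / N))), fun s => h.dH _ _ _, ?_⟩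
  intro ω hω b hb
  have h1 := h.tb a ha a le_rfl (a * (J / N)) le_rfl le_rfl ω hω b (fun j => (hb j).trans (by
    refine one_div_le_one_div_of_le (by positivity) (pow_le_pow_right₀ (by norm_num) ?_)
    exact Nat.mul_le_mul_right _ (by omega)))
  rw [slam_coarse F hle haJ] at h1
  exact h1

end Pool.SLF
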