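import Pool.Agent.H71.SLP.Defs
import Pool.Agent.H62.OVN.Cnt

/-!
# Claims for the parts, regularity of the rows

`clg_pi`: a claim for the event is a claim for all its parts of proportion at least `π₀`.
`zr_sub`: rows which are not full stay so on all parts of a stable event, with a smaller constant.
-/

set_option autoImplicit false

namespace Pool.SLF

open Finset Real
open Pool.Agent.H49.Ent Pool.Agent.H32.Dense Pool.STK Pool.KA Pool.KSAT Pool.K2S Pool.PB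

/-- **Claims for the parts** of proportion at least `π₀`. -/
theorem clg_pi {m : ℕ} {S : FCl m} {Φ : Stat m} (hc : Clg S Φ) {π₀ : ℝ} (hπ : 0 < π₀) :
    Clg S (fun _ F A => ∀ A₁ : F.Ω → Prop, Sub A₁ A → π₀ * Pe F.p A ≤ Pe F.p A₁ → Φ _ F A₁) := by
  induction hc with
  | base τ hτ J₁ h =>
    obtain ⟨J₂, hJ₂⟩ := exists_nat_gt (2 * -Real.log π₀ / τ)
    refine Clg.base (τ / 2) (by positivity) (max J₁ J₂) fun J hJ F A hA A₁ _ hP => ?_
    have h1 : J₁ ≤ J := (le_max_left _ _).trans hJ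
    have h2 : (J₂ : ℝ) ≤ J := by exact_mod_cast (le_max_right J₁ J₂).trans hJ
    have h3 : 2 * -Real.log π₀ / τ < J := lt_of_lt_of_le hJ₂ h2
    rw [div_lt_iff₀ hτ] at h3
    refine h J h1 F A₁ ⟨S.mono (by linarith) hA.1, ?_⟩
    refine le_trans ?_ hP
    refine le_trans ?_ (mul_le_mul_of_nonneg_left hA.2 hπ.le)
    rw [← Real.exp_log hπ, ← Real.exp_add, Real.exp_le_exp]
    linarith
  | step L h ih =>
    refine Clg.step L fun κ hκ => ?_
    obtain ⟨J₂, hJ₂⟩ := exists_nat_gt (2 * -Real.log π₀ / κ)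
    refine Clg.mono (J₂ := J₂) (ih (κ / 2) (by positivity)) ?_
    intro J hJ F A h1 h2 A₁ hsub hP
    refine h1 A₁ hsub hP fun i => ?_
    have h3 := h2 i
    have h4 : (J₂ : ℝ) ≤ J := by exact_mod_cast hJ
    have h5 : 2 * -Real.log π₀ / κ < J := lt_of_lt_of_le hJ₂ h4
    rw [div_lt_iff₀ hκ] at h5
    have h6 : Real.exp (-(-Real.log π₀)) * Pe F.p A ≤ Pe F.p A₁ := by
      rw [neg_neg, Real.exp_log hπ]
      exact hP
    have h7 := h3.sub (L.her J F i) hsub h6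
    exact h7.mono F.isLaw (by linarith)

/-- **Regularity of the rows**: the rows which are not full stay so on the parts. -/
theorem zr_sub {m : ℕ} (S : FCl m) {c c' : ℝ} (hc' : 0 < c') (hcc : c' < c) (hcm : c ≤ m)
    (N : ℕ) :
    Clg S (fun _ F A => ∀ p₁ p₂ : ℕ, p₁ < p₂ → p₂ ≤ N → Zr F c N p₁ p₂ A →
      ∀ A₁ : F.Ω → Prop, Sub A₁ A → 0 < Pe F.p A₁ → Zr F c' N p₁ p₂ A₁) := by
  have hl2 : 0 < Real.log 2 := Real.log_pos (by norm_num)
  have hm0 : (0 : ℝ) < m := by linarith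
  obtain ⟨θ, hθ⟩ : ∃ θ : ℝ, θ = (c - c') / m := ⟨_, rfl⟩
  have hθ0 : 0 < θ := by rw [hθ]; exact div_pos (by linarith) hm0
  have hθm : θ * m = c - c' := by
    rw [hθ]
    field_simp
  have key : ∀ p₁ p₂ : ℕ, p₁ < p₂ → p₂ ≤ N → Clg S (fun _ F A => Zr F c N p₁ p₂ A →
      ∀ A₁ : F.Ω → Prop, Sub A₁ A → 0 < Pe F.p A₁ → Zr F c' N p₁ p₂ A₁) := by
    intro p₁ p₂ hp hpN
    have hN : 0 < N := by omega
    have h1 := Pool.OVN.clg_cn S hθ0 (fun J => p₁ * (J / N)) (fun J => p₂ * (J / N))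
      (fun J => (m - c') * ((((p₂ * (J / N) : ℕ) : ℝ) - ((p₁ * (J / N) : ℕ) : ℝ)) *
        Real.log 2)) N (by
        intro J hJ
        have h2 : 1 ≤ J / N := (Nat.one_le_div_iff hN).2 hJ
        have h3 : ((p₁ * (J / N) : ℕ) : ℝ) < ((p₂ * (J / N) : ℕ) : ℝ) := by
          exact_mod_cast Nat.mul_lt_mul_of_pos_right hp (by omega)
        have h4 : (0 : ℝ) < m - c' := by linarith
        have h5 : (0 : ℝ) < ((p₂ * (J / N) : ℕ) : ℝ) - ((p₁ * (J / N) : ℕ) : ℝ) := by linarith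
        positivity)
    refine Clg.mono (J₂ := 0) h1 ?_
    intro J _ F A h2 hz A₁ hsub hA₁
    have h3 : ((p₁ * (J / N) : ℕ) : ℝ) ≤ ((p₂ * (J / N) : ℕ) : ℝ) := by
      exact_mod_cast Nat.mul_le_mul_right _ hp.le
    obtain ⟨D, hD⟩ : ∃ D : ℝ, D = (((p₂ * (J / N) : ℕ) : ℝ) - ((p₁ * (J / N) : ℕ) : ℝ)) *
      Real.log 2 := ⟨_, rfl⟩
    have hD0 : 0 ≤ D := by
      rw [hD]
      exact mul_nonneg (by linarith) hl2.le
    simp only [← hD] at h2
    have hz' : CH (Pool.Agent.H49.Ent.cond F.p A True) (F.X (p₂ * (J / N)))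
        (ptr F (p₁ * (J / N))) ≤ (m - c) * D := by
      rw [hD]
      exact hz
    have h4 := h2 ((m - c) * D) (mul_nonneg (by linarith) hD0) hz' (by
      have e1 : (1 + θ) * ((m - c) * D) = ((m - c) + (θ * m - θ * c)) * D := by ring
      rw [e1, hθm]
      refine mul_le_mul_of_nonneg_right ?_ hD0
      have : 0 ≤ θ * c := mul_nonneg hθ0.le (by linarith)
      linarith)
    have h5 : Pool.OVN.Cn (F.X (p₂ * (J / N))) (ptr F (p₁ * (J / N))) ((m - c') * D) A₁ :=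
      Pool.OVN.Cn.hered _ _ _ _ _ hsub h4
    have h6 := Pool.OVN.Cn.CH (isLaw_cond F.isLaw hA₁) h5 (by
      intro ω hω
      have h7 := ((cond_pos_iff F.isLaw.nonneg A₁ True ω).1 hω).2
      rw [h7]
      trivial)
    unfold Zr Zm
    rw [← hD]
    exact h6
  refine Clg.mono (J₂ := 0) (Clg.finite (ι := Fin (N + 1) × Fin (N + 1)) fun v =>
    Clg.cnd (P := (v.1 : ℕ) < v.2 ∧ (v.2 : ℕ) ≤ N) fun hv => key v.1 v.2 hv.1 hv.2) ?_
  intro J _ F A h p₁ p₂ hp hpN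
  exact h (⟨p₁, by omega⟩, ⟨p₂, by omega⟩) ⟨hp, hpN⟩

end Pool.SLF
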