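import Pool.Agent.H7.SLF.Shd
import Pool.Agent.H7.SLF.Reg
import Pool.Agent.H7.SLP.H5A
import Pool.Agent.H59.M5.Bxs

/-!
# (H5F): the rows of the heights in the context are not full, on all large events
-/

set_option autoImplicit false

namespace Pool.SLF

open Finset Real MvPolynomial
open Pool.Agent.H49.Ent Pool.Agent.H32.Dense Pool.STK Pool.KA Pool.KSAT Pool.K2S Pool.PB
open Pool.SLO

variable {k : ℕ}

/-- More digits of a number. -/
theorem digits_le {Ω T : Type} [Fintype Ω] {p : Ω → ℝ} (hp : IsLaw p) (y : Ω → ℝ) (W : Ω → T)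
    {r s : ℕ} (h : r ≤ s) :
    CH p (fun ω => ⌊(2 : ℝ) ^ s * y ω⌋) (fun ω => (⌊(2 : ℝ) ^ r * y ω⌋, W ω)) ≤
      ((s : ℝ) - r + 3) * Real.log 2 := by
  have hl2 : 0 < Real.log 2 := Real.log_pos (by norm_num)
  refine (CH_le_int hp.nonneg hp.sum_one _ _ (fun _ => (2 : ℝ) ^ (s - r) + 1) ?_).trans ?_
  · intro ω ω' _ _ he
    have e1 : ⌊(2 : ℝ) ^ r * y ω⌋ = ⌊(2 : ℝ) ^ r * y ω'⌋ := (Prod.ext_iff.1 he).1
    have e2 := Pool.OCT.floor_eq_near e1
    refine Pool.OCT.floor_diff ?_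
    have e3 : (2 : ℝ) ^ s = 2 ^ (s - r) * 2 ^ r := by
      rw [← pow_add]
      congr 1
      omega
    rw [e3, mul_assoc, mul_assoc, ← mul_sub, abs_mul, abs_of_pos (by positivity)]
    calc (2 : ℝ) ^ (s - r) * |2 ^ r * y ω - 2 ^ r * y ω'| ≤ 2 ^ (s - r) * 1 :=
          mul_le_mul_of_nonneg_left e2 (by positivity)
      _ = 2 ^ (s - r) := mul_one _
  · rw [Ex_const hp.sum_one]
    have h1 : (1 : ℝ) ≤ 2 ^ (s - r) := one_le_pow₀ (by norm_num)
    have h2 : (2 : ℝ) * (2 ^ (s - r) + 1) + 1 ≤ 2 ^ (s - r + 3) := by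
      rw [pow_add]
      nlinarith only [h1]
    refine (Real.log_le_log (by positivity) h2).trans (le_of_eq ?_)
    rw [Real.log_pow]
    push_cast
    rw [Nat.cast_sub h]

/-- The units of the heights. -/
theorem nud_unit {J : ℕ} (F : Fam (k + 1) J) (i₁ : Fin (k + 1)) (N ρ K q : ℕ) (d : Dts F)
    (R a v : ℕ) {s s' : ℕ} (hR : 1 ≤ R) (hs : s = s' + J / N) (ω : F.Ω) :
    nud F i₁ N ρ K q d R a v s ω = ⌊(2 : ℝ) ^ s' * nub (R * (J / N)) i₁
      (plb F i₁ ((a + 2) * (J / N)) v (q * (J / N)) ω (own F N ρ d a ω))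
      (Rc F i₁ ((a + 2) * (J / N)) v (q * (J / N)) K (R * (J / N)) (d.H a v) ω)
      (F.tw v ω)⌋ := by
  unfold nud nu nuw nub
  congr 1
  rw [← mul_assoc, ← mul_assoc, ← pow_add, ← pow_add]
  congr 2
  obtain ⟨R', rfl⟩ : ∃ R', R = R' + 1 := ⟨R - 1, by omega⟩
  rw [Nat.add_sub_cancel, hs]
  ring

/-- **(H5F) for one event.** -/
theorem h5f_core (k K : ℕ) : ∃ C : ℝ, 0 ≤ C ∧ ∀ (J : ℕ) (F : Fam (k + 1) J) (i₁ : Fin (k + 1))
    (N ρ : ℕ) (p : ℕ → ℕ → ℕ) (d : Dts F) (A : F.Ω → Prop) (c η ε : ℝ)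
    (L B R q a w v x r h : ℕ), 0 < Pe F.p A → d.OK i₁ N ρ K p A → 1 ≤ J / N → c ≤ 1 → 0 ≤ η →
    w ≤ a → a ≤ R + 3 → a ≤ ρ → (a + 2) * (J / N) ≤ v + q * (J / N) →
    (a + 2) * (J / N) ≤ J → ρ * (J / N) ≤ J → w * (J / N) ≤ v → v ≤ a * (J / N) →
    R ≤ p a w → R + x ≤ p a a → R + x ≤ ρ → 1 ≤ R → 0 < L → x ≤ B * L →
    GC F c N L B R A → Mkf F i₁ η A →
    CH (Qa F A) (shs F i₁ N ρ K d R a (x * (J / N))) (bxs F i₁ N ρ K d R a 0) ≤ ε →
    r + h ≤ x * (J / N) → 6 * (J / N) ≤ h →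
    CH (Qa F A) (nud F i₁ N ρ K q d R a v (r + h))
      (fun ω => (nud F i₁ N ρ K q d R a v r ω, (cx F i₁ N q d R a v ω, F.W ω))) ≤
      (1 - c) * (h * Real.log 2) +
        (6 + 2 * ((k + 1 : ℕ) : ℝ) * L) * ((J / N : ℕ) * Real.log 2) + η * J + 2 * ε + C := by
  obtain ⟨C₁, hC₁0, hC₁⟩ := SLP.h5_fam (k + 1) K (2 * ((k + 1 : ℕ) : ℝ) + 1)
    (1 + (mons (k + 1) K).card) (by positivity) (by positivity)
  obtain ⟨C₂, hC₂0, hC₂⟩ := SLO.mk_bxs (k + 1) K
  have hl2 : 0 < Real.log 2 := Real.log_pos (by norm_num)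
  refine ⟨C₁ + C₂ + 3 * Real.log 2, by positivity, ?_⟩
  intro J F i₁ N ρ p d A c η ε L B R q a w v x r h hA hd hu hc1 hη hwa haR haρ hq haJ hρJ hv hv'
    hRp hRx hRρ hR1 hL hxB hGC hM hFR hrh hh6
  obtain ⟨u, hu'⟩ : ∃ u, u = J / N := ⟨_, rfl⟩
  have hp : IsLaw (Qa F A) := isLaw_cond F.isLaw hA
  have hnn := hp.nonneg
  have hvJ : v ≤ J := hv'.trans ((Nat.mul_le_mul_right _ (by omega : a ≤ a + 2)).trans haJ)
  obtain ⟨r₁, hr₁⟩ : ∃ r₁, r₁ = max r (6 * u) := ⟨_, rfl⟩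
  have hr1a : r ≤ r₁ := by rw [hr₁]; exact le_max_left _ _
  have hr1b : 6 * u ≤ r₁ := by rw [hr₁]; exact le_max_right _ _
  have hr1c : r₁ ≤ r + 6 * u := by rw [hr₁]; exact max_le (by omega) (by omega)
  obtain ⟨r', hr'⟩ : ∃ r', r₁ = r' + u := ⟨r₁ - u, by omega⟩
  obtain ⟨h', hh'⟩ : ∃ h', r + h = r₁ + h' := ⟨r + h - r₁, by rw [← hu'] at hh6; omega⟩
  -- the first digits
  have s1 := digits_le hp (nu F i₁ N ρ K q d R a v)
    (fun ω => (cx F i₁ N q d R a v ω, F.W ω)) hr1a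
  have s1' : CH (Qa F A) (nud F i₁ N ρ K q d R a v r₁)
      (fun ω => (nud F i₁ N ρ K q d R a v r ω, (cx F i₁ N q d R a v ω, F.W ω))) ≤
      6 * (u * Real.log 2) + 3 * Real.log 2 := by
    refine s1.trans ?_
    have e1 : (r₁ : ℝ) ≤ r + 6 * u := by exact_mod_cast hr1c
    nlinarith only [hl2, e1]
  have s2 := CH_le_add hnn (nud F i₁ N ρ K q d R a v (r + h)) (nud F i₁ N ρ K q d R a v r₁)
    (fun ω => (nud F i₁ N ρ K q d R a v r ω, (cx F i₁ N q d R a v ω, F.W ω)))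
  have s3 : CH (Qa F A) (nud F i₁ N ρ K q d R a v (r + h))
      (fun ω => (nud F i₁ N ρ K q d R a v r₁ ω,
        (nud F i₁ N ρ K q d R a v r ω, (cx F i₁ N q d R a v ω, F.W ω)))) ≤
      CH (Qa F A) (nud F i₁ N ρ K q d R a v (r + h))
      (fun ω => (nud F i₁ N ρ K q d R a v r₁ ω, (cx F i₁ N q d R a v ω, F.W ω))) := by
    refine CH_mono_cond hnn ?_
    intro ω ω' _ _ he
    have e1 := Prod.ext_iff.1 he
    exact Prod.ext e1.1 (Prod.ext_iff.1 e1.2).2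
  -- the rows
  have hQ : R * (J / N) + r' + h' ≤ (R + x) * (J / N) := by
    rw [add_mul]
    omega
  have hrow := SLP.rows_win hp F.x F.W (R * (J / N)) (L * (J / N)) B (c := c) (d := 0)
    (Nat.mul_pos hL (by omega)) (by push_cast; linarith only [hc1, (Nat.cast_nonneg k : (0 : ℝ) ≤ k)])
    le_rfl (by
      intro l hl
      have h1 := hGC.2 (B + l) (by omega)
      have e1 : (B + l) * L = B * L + l * L := by ring
      have e2 : (B + l + 1) * L = B * L + (l + 1) * L := by ring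
      have e3 : (R + (B + l) * L - B * L) * (J / N) = R * (J / N) + l * (L * (J / N)) := by
        have : R + (B + l) * L - B * L = R + l * L := by omega
        rw [this]
        ring
      have e4 : (R + (B + l + 1) * L - B * L) * (J / N) =
          R * (J / N) + (l + 1) * (L * (J / N)) := by
        have : R + (B + l + 1) * L - B * L = R + (l + 1) * L := by omega
        rw [this]
        ring
      unfold Zr Zm at h1
      rw [e3, e4] at h1
      refine le_trans (le_of_eq rfl) (h1.trans (le_of_eq ?_))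
      push_cast
      ring)
    (a := R * (J / N) + r') (b := R * (J / N) + r' + h') (Nat.le_add_right _ _)
    (Nat.le_add_right _ _) (by
      have e5 : x * (J / N) ≤ B * (L * (J / N)) := by
        rw [← mul_assoc]
        exact Nat.mul_le_mul_right _ hxB
      omega)
  -- the tangential digits
  obtain ⟨H, hH1, hH2⟩ := ok_ball hd haρ haJ
  have hmk := hC₂ J F i₁ η A hM hA (ρ * (J / N)) ((a + 2) * (J / N)) (R * (J / N)) (r' + h')
    (p a a * (J / N)) (R * (J / N) + r' + h') (d.G a) H hρJ (by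
      have e5 : (a + 2) * (J / N) ≤ (R + 5) * (J / N) := Nat.mul_le_mul_right _ (by omega)
      rw [add_mul R 5] at e5
      omega)
    (hQ.trans ((Nat.mul_le_mul_right _ hRρ).trans hρJ)) (by
      have e5 : (R + x) * (J / N) ≤ p a a * (J / N) := Nat.mul_le_mul_right _ hRx
      omega)
    (hd.dG a) hH1 hH2
  have hε : 0 ≤ ε := (CH_nonneg hnn _ _).trans hFR
  have hηJ : 0 ≤ η * J := mul_nonneg hη (Nat.cast_nonneg J)
  have hhl : 0 ≤ (1 - c) * (h * Real.log 2) := mul_nonneg (by linarith only [hc1]) (by positivity)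
  have hLu : 0 ≤ 2 * ((k + 1 : ℕ) : ℝ) * L * ((J / N : ℕ) * Real.log 2) := by positivity
  have hexp : (6 + 2 * ((k + 1 : ℕ) : ℝ) * L) * ((J / N : ℕ) * Real.log 2) =
      6 * ((J / N : ℕ) * Real.log 2) +
        2 * ((k + 1 : ℕ) : ℝ) * L * ((J / N : ℕ) * Real.log 2) := by ring
  rw [hexp]
  rw [hu'] at s1'
  -- the empty window
  rcases Nat.eq_zero_or_pos h' with h0 | h0
  · have s4 : CH (Qa F A) (nud F i₁ N ρ K q d R a v (r + h))
        (fun ω => (nud F i₁ N ρ K q d R a v r₁ ω, (cx F i₁ N q d R a v ω, F.W ω))) = 0 := by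
      refine CH_eq_zero hnn ?_
      intro ω ω' _ _ he
      have e1 : r + h = r₁ := by omega
      rw [e1]
      exact (Prod.ext_iff.1 he).1
    linarith only [hC₁0, hC₂0, s1', s2, s3, hε, hηJ, hhl, hLu, s4]
  · obtain ⟨c', hc'⟩ : ∃ c' : ℝ, c' = c - 2 * ((k + 1 : ℕ) : ℝ) * L * ((J / N : ℕ) : ℝ) / h' :=
      ⟨_, rfl⟩
    have hh0 : (0 : ℝ) < h' := by exact_mod_cast h0
    have hch : c' * (h' * Real.log 2) = c * (h' * Real.log 2) -
        2 * ((k + 1 : ℕ) : ℝ) * L * ((J / N : ℕ) * Real.log 2) := by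
      rw [hc']
      field_simp
    have key := hC₁ J F i₁ A ((a + 2) * (J / N)) v (q * (J / N)) (R * (J / N)) (R * (J / N)) r' h'
      (x * (J / N)) c' (C₂ + η * J) ε (own F N ρ d a) (d.H a v) hp hvJ hq (by
        have e5 : (a + 2) * (J / N) ≤ (R + 5) * (J / N) := Nat.mul_le_mul_right _ (by omega)
        rw [add_mul R 5] at e5
        omega) (by omega)
      (fun ω _ => hd.dG _ _) (fun ω hω => ok_grad hd hu haρ ω hω)
      (fun ω hω => ok_on hd haρ (by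
        have e5 : (R + x) * (J / N) ≤ p a a * (J / N) := Nat.mul_le_mul_right _ hRx
        omega) ω hω)
      (fun ω hω => ok_near hd hu hwa haρ hv hv' hvJ hq hRp ω hω)
      (by
        refine hrow.trans (le_of_eq ?_)
        rw [sub_mul _ c', hch]
        push_cast
        ring)
      hmk hFR
    have e6 : nud F i₁ N ρ K q d R a v (r + h) = fun ω => ⌊(2 : ℝ) ^ (r' + h') *
        nub (R * (J / N)) i₁
        (plb F i₁ ((a + 2) * (J / N)) v (q * (J / N)) ω (own F N ρ d a ω))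
        (Rc F i₁ ((a + 2) * (J / N)) v (q * (J / N)) K (R * (J / N)) (d.H a v) ω)
        (F.tw v ω)⌋ := by
      funext ω
      exact nud_unit F i₁ N ρ K q d R a v hR1 (by omega) ω
    have e7 : nud F i₁ N ρ K q d R a v r₁ = fun ω => ⌊(2 : ℝ) ^ r' *
        nub (R * (J / N)) i₁
        (plb F i₁ ((a + 2) * (J / N)) v (q * (J / N)) ω (own F N ρ d a ω))
        (Rc F i₁ ((a + 2) * (J / N)) v (q * (J / N)) K (R * (J / N)) (d.H a v) ω)
        (F.tw v ω)⌋ := by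
      funext ω
      exact nud_unit F i₁ N ρ K q d R a v hR1 (by omega) ω
    have s4 : CH (Qa F A) (nud F i₁ N ρ K q d R a v (r + h))
        (fun ω => (nud F i₁ N ρ K q d R a v r₁ ω, (cx F i₁ N q d R a v ω, F.W ω))) ≤
        (1 - c') * (h' * Real.log 2) + (C₂ + η * J) + 2 * ε + C₁ := by
      rw [e6, e7]
      exact key
    have s5 : (1 - c') * (h' * Real.log 2) = (1 - c) * (h' * Real.log 2) +
        2 * ((k + 1 : ℕ) : ℝ) * L * ((J / N : ℕ) * Real.log 2) := by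
      rw [sub_mul, sub_mul, hch]
      ring
    have s6 : (1 - c) * (h' * Real.log 2) ≤ (1 - c) * (h * Real.log 2) := by
      have e8 : (h' : ℝ) ≤ h := by exact_mod_cast (by omega : h' ≤ h)
      exact mul_le_mul_of_nonneg_left (mul_le_mul_of_nonneg_right e8 hl2.le) (by linarith only [hc1])
    linarith only [s1', s2, s3, hch, s4, s6]

/-- Good rows pass to the parts. -/
theorem gc_sub {m J : ℕ} {F : Fam m J} {c c' : ℝ} {N ρ L B R : ℕ} {A A₁ : F.Ω → Prop}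
    (hz : ∀ p₁ p₂ : ℕ, p₁ < p₂ → p₂ ≤ N → Zr F c N p₁ p₂ A →
      ∀ A₁ : F.Ω → Prop, Sub A₁ A → 0 < Pe F.p A₁ → Zr F c' N p₁ p₂ A₁)
    (hL : 0 < L) (hR : R + B * L ≤ ρ) (hρ : ρ ≤ N) (hs : Sub A₁ A) (hA₁ : 0 < Pe F.p A₁)
    (h : GC F c N L B R A) : GC F c' N L B R A₁ := by
  refine ⟨h.1, fun j hj => hz _ _ ?_ ?_ (h.2 j hj) A₁ hs hA₁⟩
  · have h1 := h.1
    have e : (j + 1) * L = j * L + L := by ring
    omega
  · have e : (j + 1) * L ≤ (2 * B) * L := Nat.mul_le_mul_right _ (by omega)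
    have e2 : (2 * B) * L = B * L + B * L := by ring
    omega

theorem pls_sub {m J : ℕ} {F : Fam m J} {c c' : ℝ} {N ρ : ℕ} {A A₁ : F.Ω → Prop}
    (hz : ∀ p₁ p₂ : ℕ, p₁ < p₂ → p₂ ≤ N → Zr F c N p₁ p₂ A →
      ∀ A₁ : F.Ω → Prop, Sub A₁ A → 0 < Pe F.p A₁ → Zr F c' N p₁ p₂ A₁)
    (hs : Sub A₁ A) (hA₁ : 0 < Pe F.p A₁) (h : Pls F c N ρ A) : Pls F c' N ρ A₁ :=
  fun p' h1 h2 => hz _ _ h1 h2 (h p' h1 h2) A₁ hs hA₁

/-- The errors. -/
theorem h5f_num {c κ kk L x U h C η J N l : ℝ} (hl : 0 < l) (hc : 0 < c) (hκ : 0 < κ)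
    (hN : 0 < N) (hL : 1 ≤ L) (hx : 1 ≤ x) (hU : 1 ≤ U)
    (hLx : 16 * (6 + 2 * kk) * L ≤ c * κ * x) (hκh : κ * (x * U) ≤ h)
    (hη : η = c * κ * l / (32 * N)) (hJ : J ≤ 2 * N * U) (hCU : 16 * C ≤ U * (c * κ * l)) :
    (1 - 3 * c / 4) * (h * l) + (6 + 2 * kk * L) * (U * l) + η * J +
      2 * (c * κ * l / 32 * (x * U)) + C ≤ (1 - c / 2) * h * l := by
  obtain ⟨T, hT⟩ : ∃ T : ℝ, T = c * κ * l / 16 * (x * U) := ⟨_, rfl⟩
  have hckl : 0 < c * κ * l := by positivity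
  have hUx : U ≤ x * U := by
    have := mul_le_mul_of_nonneg_right hx (by linarith only [hU] : 0 ≤ U)
    linarith only [this]
  have hT0 : c * κ * l / 16 * U ≤ T := by
    rw [hT]
    exact mul_le_mul_of_nonneg_left hUx (by positivity)
  have t0 : 4 * T ≤ c / 4 * (h * l) := by
    rw [hT]
    have : c / 4 * (κ * (x * U) * l) ≤ c / 4 * (h * l) :=
      mul_le_mul_of_nonneg_left (mul_le_mul_of_nonneg_right hκh hl.le) (by linarith only [hc])
    linarith only [this]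
  have t1 : (6 + 2 * kk * L) * (U * l) ≤ T := by
    have h2 : 6 + 2 * kk * L ≤ c * κ * x / 16 := by
      have : (6 + 2 * kk) * L = 6 * L + 2 * kk * L := by ring
      linarith only [hL, hLx]
    have h3 := mul_le_mul_of_nonneg_right h2 (by positivity : 0 ≤ U * l)
    rw [hT]
    linarith only [h3]
  have t2 : η * J ≤ T := by
    have hη0 : 0 ≤ η := by rw [hη]; positivity
    have h2 : η * J ≤ η * (2 * N * U) := mul_le_mul_of_nonneg_left hJ hη0
    have h3 : η * (2 * N * U) = c * κ * l / 16 * U := by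
      rw [hη]
      field_simp
      ring
    linarith only [hT0, h2, h3]
  have t3 : C ≤ T := by
    have : c * κ * l / 16 * U = U * (c * κ * l) / 16 := by ring
    linarith only [hCU, hT0]
  have t4 : 2 * (c * κ * l / 32 * (x * U)) = T := by
    rw [hT]
    ring
  have t5 : (1 - 3 * c / 4) * (h * l) = (1 - c / 2) * h * l - c / 4 * (h * l) := by ring
  linarith only [hCU, hT, hT0, t0, t1, t2]

/-- **(H5F)**: the rows of the heights are not full, on all events of probability at least `p₀`. -/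
theorem h5f_thm {S : FCl (k + 1)} (hS : SPS S (k - 1)) (hFR : FRF S) : H5F S := by
  intro c h₁ X K κ p₀ hc hc1 hh hX hK hκ hp₀
  have hl2 : 0 < Real.log 2 := Real.log_pos (by norm_num)
  obtain ⟨c₁, hc₁⟩ : ∃ c₁ : ℝ, c₁ = 3 * c / 4 := ⟨_, rfl⟩
  have hc₁0 : 0 < c₁ := by rw [hc₁]; positivity
  have hc₁1 : c₁ ≤ 1 := by rw [hc₁]; linarith only [hc1]
  have hc₁c : c₁ < c := by rw [hc₁]; linarith only [hc]
  obtain ⟨B₂, hB₂, hB⟩ := hFR c₁ h₁ X K (c * κ * Real.log 2 / 32) hc₁0 hc₁1 hh hX hK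
    (by positivity)
  obtain ⟨M, hM⟩ := exists_nat_gt (16 * (6 + 2 * ((k + 1 : ℕ) : ℝ)) / (c * κ))
  refine ⟨max B₂ M, hB₂.trans (le_max_left _ _), fun B₁ hB₁ => ?_⟩
  obtain ⟨B₀, hB₀⟩ := hB B₁ ((le_max_left _ _).trans hB₁)
  refine ⟨max B₀ (max B₁ 1), fun B hBB => ?_⟩
  have hB1 : B₁ ≤ B := (le_max_left _ _).trans ((le_max_right _ _).trans hBB)
  have hB1' : 1 ≤ B := (le_max_right _ _).trans ((le_max_right _ _).trans hBB)
  obtain ⟨L₁, hL₁⟩ := hB₀ B ((le_max_left _ _).trans hBB)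
  obtain ⟨L₂, hL₂⟩ := exists_nat_gt (2 / X)
  refine ⟨max L₁ (max L₂ 1), fun L hL N x hx hx' i₁ ρ R q a w hwa haR haρ hq hR hρ => ?_⟩
  have hL1 : 1 ≤ L := (le_max_right _ _).trans ((le_max_right _ _).trans hL)
  have hLL₂ : L₂ ≤ L := (le_max_left _ _).trans ((le_max_right _ _).trans hL)
  have hx2 : B₂ * L ≤ x := (Nat.mul_le_mul_right _ (le_max_left _ _)).trans hx
  have hxM : M * L ≤ x := (Nat.mul_le_mul_right _ (le_max_right _ _)).trans hx
  have hx1 : 1 ≤ x := by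
    have : 1 * 1 ≤ B₂ * L := Nat.mul_le_mul hB₂ hL1
    omega
  have hBL : L ≤ B * L := Nat.le_mul_of_pos_left _ (by omega)
  have hρN : ρ ≤ N := by
    have h1 : (ρ : ℝ) ≤ N := by
      have : 0 ≤ X * N := by positivity
      linarith only [hρ, this]
    exact_mod_cast h1
  have hN : 0 < N := by omega
  have hN0 : (0 : ℝ) < N := by exact_mod_cast hN
  have haN : a + 2 ≤ N := by
    have h1 : (L : ℝ) ≤ N := by exact_mod_cast (by omega : L ≤ N)
    have h2 : (L₂ : ℝ) ≤ L := by exact_mod_cast hLL₂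
    have h3 : 2 / X < N := by linarith only [hL₂, h1, h2]
    rw [div_lt_iff₀ hX] at h3
    have h4 : (a : ℝ) ≤ ρ := by exact_mod_cast haρ
    have h5 : ((a + 2 : ℕ) : ℝ) ≤ N := by
      push_cast
      linarith only [hρ, h3, h4]
    exact_mod_cast h5
  have hfr := hL₁ L ((le_max_left _ _).trans hL) N x hx2 hx' i₁ ρ R a haR haρ hR hρ
  obtain ⟨η, hη⟩ : ∃ η : ℝ, η = c * κ * Real.log 2 / (32 * N) := ⟨_, rfl⟩
  have hη0 : 0 < η := by rw [hη]; positivity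
  have hmk := mkf_clg (S := S) (m := k + 1) hS hh hη0
  have hzr := zr_sub S hc₁0 hc₁c (by push_cast; linarith only [hc1, (Nat.cast_nonneg k : (0 : ℝ) ≤ k)]) N
  obtain ⟨C, hC0, hC⟩ := h5f_core k K
  obtain ⟨u₀, hu₀⟩ := exists_nat_gt (16 * C / (c * κ * Real.log 2))
  refine Clg.mono (J₂ := N * (u₀ + 1))
    ((clg_pi hfr hp₀).and ((clg_pi hmk hp₀).and (hzr.and (clg_pos S)))) ?_
  intro J hJ F A h2 hCh hPls hGC p d hd hgap hRp v hv hv' r h hκh hrh E hE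
  obtain ⟨g1, g2, g3, hA⟩ := h2
  have hu : u₀ + 1 ≤ J / N := by
    rw [Nat.le_div_iff_mul_le hN, mul_comm]
    exact hJ
  have hu1 : 1 ≤ J / N := by omega
  obtain ⟨A₁, hA₁⟩ : ∃ A₁ : F.Ω → Prop, A₁ = fun ω => A ω ∧ ω ∈ E := ⟨_, rfl⟩
  have hcond : Pool.Agent.H49.Ent.cond (Qa F A) (fun ω => ω ∈ E) True = Qa F A₁ := by
    rw [hA₁]
    exact Pool.K2S.Piece.cond_inter hA.ne'
  have hsub : Sub A₁ A := by
    intro ω hω
    rw [hA₁] at hω
    exact hω.1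
  have hPA₁ : p₀ * Pe F.p A ≤ Pe F.p A₁ := by
    have h1 : Pe (Pool.Agent.H49.Ent.cond F.p A True) (fun ω => ω ∈ E) =
        Pe F.p (fun ω => A ω ∧ ω ∈ E) / Pe F.p A := Pe_cond _
    have h2 : p₀ ≤ Pe (Pool.Agent.H49.Ent.cond F.p A True) (fun ω => ω ∈ E) := hE
    rw [h1, le_div_iff₀ hA] at h2
    rw [hA₁]
    exact h2
  have hA₁0 : 0 < Pe F.p A₁ := lt_of_lt_of_le (mul_pos hp₀ hA) hPA₁
  have hCh₁ : Ch F i₁ ⌊h₁ * J⌋₊ A₁ := Ch.hered F i₁ _ _ _ hsub hCh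
  have hGC₁ := gc_sub g3 hL1 hR hρN hsub hA₁0 hGC
  have hFR₁ := g1 A₁ hsub hPA₁ hCh₁ (pls_sub g3 hsub hA₁0 hPls) hGC₁ p d (hd.sub hsub) hgap
  have hMk₁ := g2 A₁ hsub hPA₁ i₁ hCh₁
  have hRB : R + B * L ≤ p a a := ok_gap hd haρ hgap
  have hxBL : x ≤ B * L := hx'.trans (Nat.mul_le_mul_right _ hB1)
  have hqq : (a + 2) * (J / N) ≤ v + q * (J / N) := by
    have e1 : (a + 2) * (J / N) ≤ (w + q) * (J / N) := Nat.mul_le_mul_right _ (by omega)
    rw [add_mul w q] at e1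
    omega
  have hR1 : 1 ≤ R := by
    have := hGC.1
    omega
  -- numbers
  obtain ⟨U, hU⟩ : ∃ U : ℝ, U = ((J / N : ℕ) : ℝ) := ⟨_, rfl⟩
  have hU1 : 1 ≤ U := by rw [hU]; exact_mod_cast hu1
  have hxr : (1 : ℝ) ≤ x := by exact_mod_cast hx1
  have hLr : (1 : ℝ) ≤ L := by exact_mod_cast hL1
  have hxU : ((x * (J / N) : ℕ) : ℝ) = x * U := by rw [hU]; push_cast; rfl
  have hcκ : 0 < c * κ := by positivity
  have hMr : 16 * (6 + 2 * ((k + 1 : ℕ) : ℝ)) < M * (c * κ) := by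
    rwa [div_lt_iff₀ hcκ] at hM
  have hxMr : (M : ℝ) * L ≤ x := by exact_mod_cast hxM
  have hLx : 16 * (6 + 2 * ((k + 1 : ℕ) : ℝ)) * L ≤ c * κ * x := by
    have h1 : 16 * (6 + 2 * ((k + 1 : ℕ) : ℝ)) * L ≤ M * (c * κ) * L :=
      mul_le_mul_of_nonneg_right hMr.le (by linarith only [hc1, hc₁, hc₁c, hLr])
    have h2 : M * (c * κ) * L ≤ c * κ * x := by
      have : c * κ * (M * L) ≤ c * κ * x := mul_le_mul_of_nonneg_left hxMr hcκ.le
      linarith only [this]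
    linarith only [h1, h2]
  rw [hxU] at hκh
  have hh6 : 6 * (J / N) ≤ h := by
    have h1 : c * κ * x ≤ κ * x := by
      have : c * (κ * x) ≤ 1 * (κ * x) := mul_le_mul_of_nonneg_right hc1 (by positivity)
      linarith only [this]
    have h2 : (6 : ℝ) ≤ κ * x := by
      have h3 : (0 : ℝ) ≤ ((k + 1 : ℕ) : ℝ) := by positivity
      nlinarith only [hc1, hc₁, hc₁c, hLr, hLx, h1]
    have h4 : 6 * U ≤ κ * (x * U) := by
      have : 6 * U ≤ κ * x * U := mul_le_mul_of_nonneg_right h2 (by linarith only [hc1, hc₁, hc₁c, hU1])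
      linarith only [this]
    have h5 : ((6 * (J / N) : ℕ) : ℝ) ≤ h := by
      push_cast
      rw [← hU]
      linarith only [hκh, h4]
    exact_mod_cast h5
  have key := hC J F i₁ N ρ p d A₁ c₁ η (c * κ * Real.log 2 / 32 * ((x * (J / N) : ℕ) : ℝ))
    L B R q a w v x r h hA₁0 (hd.sub hsub) hu1 hc₁1 hη0.le hwa haR haρ hqq
    ((Nat.mul_le_mul_right _ haN).trans (Nat.mul_div_le J N))
    ((Nat.mul_le_mul_right _ hρN).trans (Nat.mul_div_le J N)) hv hv' hRp (by omega)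
    (by omega) hR1 hL1 hxBL hGC₁ hMk₁ hFR₁ hrh hh6
  rw [hcond]
  refine key.trans ?_
  rw [hxU, ← hU]
  have e9 : (J : ℝ) ≤ 2 * N * U := by
    have h3 : J < N * (J / N + 1) := by
      have := Nat.lt_div_mul_add hN (a := J)
      rw [mul_add, mul_one, mul_comm]
      exact this
    have h4 : (J : ℝ) < N * (((J / N : ℕ) : ℝ) + 1) := by exact_mod_cast h3
    rw [← hU] at h4
    have h5 : (N : ℝ) * (U + 1) ≤ N * (2 * U) := mul_le_mul_of_nonneg_left (by linarith only [hU1]) hN0.le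
    linarith only [h4, h5]
  have e10 : 16 * C ≤ U * (c * κ * Real.log 2) := by
    have h1 : (u₀ : ℝ) ≤ U := by
      rw [hU]
      exact_mod_cast (by omega : u₀ ≤ J / N)
    have h2 : 16 * C / (c * κ * Real.log 2) < U := by linarith only [hu₀, h1]
    rw [div_lt_iff₀ (by positivity)] at h2
    exact h2.le
  rw [hc₁]
  exact h5f_num hl2 hc hκ hN0 hLr hxr hU1 hLx hκh hη e9 e10

end Pool.SLF
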