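import Pool.Agent.H71.SLP.Stmts
import Pool.Agent.H7.SLF.Base
import Pool.Agent.H7.SLP.SHB

/-!
# (SHD): the digits of the shape in the context
-/

set_option autoImplicit false

namespace Pool.SLF

open Finset Real MvPolynomial
open Pool.Agent.H49.Ent Pool.Agent.H32.Dense Pool.STK Pool.KA Pool.KSAT Pool.K2S Pool.PB
open Pool.SLO

variable {k : ℕ}

/-- The event has positive mass. -/
theorem clg_pos {m : ℕ} (S : FCl m) : Clg S (fun _ F A => 0 < Pe F.p A) :=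
  Clg.of one_pos 0 fun _ _ _ _ h => lt_of_lt_of_le (Real.exp_pos _) h.2

/-- Mesh bounds. -/
theorem mesh_le {N ρ J n : ℕ} {X : ℝ} (hX : 0 < X) (hρ : (ρ : ℝ) + X * N ≤ N) (hn : n ≤ ρ) :
    n * (J / N) ≤ J := by
  have h1 : (ρ : ℝ) ≤ N := by
    have : 0 ≤ X * N := by positivity
    linarith
  have h2 : ρ ≤ N := by exact_mod_cast h1
  calc n * (J / N) ≤ N * (J / N) := Nat.mul_le_mul_right _ (hn.trans h2)
    _ ≤ J := Nat.mul_div_le J N

/-- **(SHD)**. -/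
theorem shd_thm {S : FCl (k + 1)} (hFR : FRF S) : SHD S := by
  intro c h₁ X K ε hc hc1 hh hX hK hε
  obtain ⟨B₂, hB₂, hB⟩ := hFR c h₁ X K (ε / 2) hc hc1 hh hX hK (by positivity)
  refine ⟨B₂, hB₂, fun B₁ hB₁ => ?_⟩
  obtain ⟨B₀, hB₀⟩ := hB B₁ hB₁
  refine ⟨max B₀ 1, fun B hBB => ?_⟩
  have hB1 : 1 ≤ B := (le_max_right _ _).trans hBB
  obtain ⟨L₁, hL₁⟩ := hB₀ B ((le_max_left _ _).trans hBB)
  refine ⟨max L₁ 1, fun L hL N x hx hx' i₁ ρ R q a w hwa haR haρ hq hR hρ => ?_⟩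
  have hL1 : 1 ≤ L := (le_max_right _ _).trans hL
  have hx1 : 1 ≤ x := by
    have : 1 * 1 ≤ B₂ * L := Nat.mul_le_mul hB₂ hL1
    omega
  have hBL : 1 ≤ B * L := by
    have : 1 * 1 ≤ B * L := Nat.mul_le_mul hB1 hL1
    omega
  have hN : 0 < N := by
    rcases Nat.eq_zero_or_pos N with h0 | h0
    · rw [h0] at hρ
      simp only [Nat.cast_zero, mul_zero, add_zero] at hρ
      have : (ρ : ℝ) ≤ 0 := hρ
      have h1 : ρ ≤ 0 := by exact_mod_cast this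
      omega
    · exact h0
  have hfr := hL₁ L ((le_max_left _ _).trans hL) N x hx hx' i₁ ρ R a haR haρ hR hρ
  obtain ⟨C, hC0, hC⟩ := SLP.shd_of_box k K (1 + (mons (k + 1) K).card) (by positivity)
  obtain ⟨u₀, hu₀⟩ := exists_nat_gt (2 * C / ε)
  refine Clg.mono (J₂ := N * (u₀ + 1)) (hfr.and (clg_pos S)) ?_
  intro J hJ F A h2 hCh hPls hGC p d hd hgap hRp v hv hv'
  obtain ⟨h1, hA⟩ := h2
  have hu : u₀ + 1 ≤ J / N := by
    rw [Nat.le_div_iff_mul_le hN, mul_comm]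
    exact hJ
  have h3 := h1 hCh hPls hGC p d hd hgap
  have hp : IsLaw (Qa F A) := isLaw_cond F.isLaw hA
  have hR1 : 1 ≤ R := hBL.trans hGC.1
  have hvJ : v ≤ J := hv'.trans (mesh_le hX hρ haρ)
  have hqq : (a + 2) * (J / N) ≤ v + q * (J / N) := by
    have e1 : (a + 2) * (J / N) ≤ (w + q) * (J / N) := Nat.mul_le_mul_right _ (by omega)
    rw [add_mul w q] at e1
    omega
  have h4 := hC J F i₁ (Qa F A) ((a + 2) * (J / N)) v (q * (J / N)) (R * (J / N)) (R * (J / N))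
    ((x - 1) * (J / N)) (own F N ρ d a) (d.H a v) hp hvJ hqq (fun ω _ => hd.dG _ _)
    (fun ω hω => ok_near hd (by omega) hwa haρ hv hv' hvJ hqq hRp ω (SLP.of_cond_pos hω))
  have e2 : shx F i₁ N ρ K q d R a v (x * (J / N)) =
      shd F i₁ ((a + 2) * (J / N)) v (q * (J / N)) K (R * (J / N)) (R * (J / N))
        ((x - 1) * (J / N)) (d.H a v) (own F N ρ d a) := by
    funext ω al
    unfold shx shd sh shw shc
    congr 1
    rw [← mul_assoc, ← mul_assoc, ← pow_add, ← pow_add]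
    congr 2
    obtain ⟨x', rfl⟩ : ∃ x', x = x' + 1 := ⟨x - 1, by omega⟩
    obtain ⟨R', rfl⟩ : ∃ R', R = R' + 1 := ⟨R - 1, by omega⟩
    rw [Nat.add_sub_cancel, Nat.add_sub_cancel]
    ring
  have h5 : CH (Qa F A) (SLP.Sc F i₁ ((a + 2) * (J / N)) (R * (J / N)) K (own F N ρ d a)
      ((x - 1) * (J / N))) (SLP.bxs F i₁ ((a + 2) * (J / N)) (R * (J / N)) K (own F N ρ d a) 0) ≤
      CH (Qa F A) (shs F i₁ N ρ K d R a (x * (J / N))) (bxs F i₁ N ρ K d R a 0) := by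
    refine CH_mono_left hp.nonneg ?_
    intro ω ω' _ _ he
    exact SLP.Sc_nest F i₁ _ _ K _ (Nat.mul_le_mul_right _ (Nat.sub_le _ _))
      (Prod.ext_iff.1 he).1
  have h6 : C ≤ ε / 2 * ((x * (J / N) : ℕ) : ℝ) := by
    have e3 : ((u₀ : ℕ) : ℝ) ≤ ((x * (J / N) : ℕ) : ℝ) := by
      have : 1 * (u₀ + 1) ≤ x * (J / N) := Nat.mul_le_mul hx1 hu
      exact_mod_cast (by omega : u₀ ≤ x * (J / N))
    rw [div_lt_iff₀ hε] at hu₀
    nlinarith
  rw [e2]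
  have h7 : CH (Qa F A) (shd F i₁ ((a + 2) * (J / N)) v (q * (J / N)) K (R * (J / N))
      (R * (J / N)) ((x - 1) * (J / N)) (d.H a v) (own F N ρ d a))
      (fun ω => (cx F i₁ N q d R a v ω, F.W ω)) ≤ _ := h4
  linarith

end Pool.SLF
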